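import Mathlib

set_option autoImplicit false

namespace Pool.Agent.Results.MP_879d0a_co.Min

open Finset SimpleGraph Real Matrix Filter

theorem J (p q X Y : ℝ) (hp : 0 < p) (hq : 0 < q) (hX : 0 < X) (hY : 0 < Y) :
    p * log X + q * log Y - p * log p - q * log q + (p + q) * log (p + q) ≤ (p + q) * log (X + Y) := by
  have k : ∀ s Z : ℝ, 0 < s → 0 < Z →
      s * (log Z + log (p + q) - log s - log (X + Y)) ≤ Z * (p + q) / (X + Y) - s := by
    intro s Z hs hZ
    have h := log_le_sub_one_of_pos (show 0 < Z * (p + q) / (s * (X + Y)) by positivity)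
    rw [log_div (by positivity) (by positivity), log_mul (by positivity) (by positivity),
      log_mul (by positivity) (by positivity)] at h
    have e : Z * (p + q) / (X + Y) - s = s * (Z * (p + q) / (s * (X + Y)) - 1) := by field_simp
    rw [e]
    exact mul_le_mul_of_nonneg_left (by linarith) hs.le
  have e : X * (p + q) / (X + Y) + Y * (p + q) / (X + Y) = p + q := by field_simp
  have := k p X hp hX
  have := k q Y hq hY
  linarith

theorem H (p q : ℝ) (hp : 0 < p) (hq : 0 < q) :
    (p + q) * log 2 - (p - q) ^ 2 / (p + q) ≤ (p + q) * log (p + q) - p * log p - q * log q := by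
  have k : ∀ s : ℝ, 0 < s → s * (log 2 + log s - log (p + q)) ≤ s * (2 * s / (p + q) - 1) := by
    intro s hs
    have h := log_le_sub_one_of_pos (show 0 < 2 * s / (p + q) by positivity)
    rw [log_div (by positivity) (by positivity), log_mul (by positivity) (by positivity)] at h
    exact mul_le_mul_of_nonneg_left h hs.le
  have e : p * (2 * p / (p + q) - 1) + q * (2 * q / (p + q) - 1) = (p - q) ^ 2 / (p + q) := by
    field_simp; ring
  have := k p hp
  have := k q hq
  linarith

theorem E (X Y : ℝ) (hX : 0 < X) (hY : 0 < Y) : (log X + log Y) / 2 + log 2 ≤ log (X + Y) := by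
  have h := J 1 1 X Y one_pos one_pos hX hY
  norm_num at h
  linarith

theorem loc3 (r : ℝ) (h1 : 1.5213 < r) (h2 : r < 1.5214) (hr : r ^ 3 = r + 2) (a b c : Prop)
    [Decidable a] [Decidable b] [Decidable c] (X Y Z : ℝ) (hX : 0 < X) (hY : 0 < Y) (hZ : 0 < Z) :
    (if a then 1 else 4 / r ^ 3) * (log X + log r) + (if b then 1 else 4 / r ^ 3) * (log Y + log r) +
      (if c then 1 else 4 / r ^ 3) * (log Z + log r) + 2 * log r + 0.02 * (2 - ((if a then 1 else 0) +
      (if b then 1 else 0) + (if c then 1 else 0))) ≤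
    (if a then 1 else 4 / r ^ 3) * log (Y + Z) + (if b then 1 else 4 / r ^ 3) * log (X + Z) +
      (if c then 1 else 4 / r ^ 3) * log (X + Y) := by
  have r0 : 0 < r := by linarith
  obtain ⟨p, hp⟩ : ∃ p, p = 2 / r ^ 3 := ⟨_, rfl⟩
  have e4 : 4 / r ^ 3 = 2 * p := by rw [hp]; ring
  have p1 : 0.5679 < p := by rw [hp, hr, lt_div_iff₀ (by linarith)]; linarith
  have p2 : p < 0.568 := by rw [hp, hr, div_lt_iff₀ (by linarith)]; linarith
  have q : 1 - p = 1 / r ^ 2 := by
    rw [hp]; field_simp; linarith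
  have lp : log p = log 2 - 3 * log r := by
    rw [hp, log_div (by norm_num) (by positivity), log_pow]; norm_num
  have lq : log (1 - p) = - 2 * log r := by
    rw [q, log_div (by norm_num) (by positivity), log_pow]; norm_num
  have l2 := log_two_gt_d9
  have l2' := log_two_lt_d9
  have lc : 5 * log r ≤ 3 * log 2 + 0.019 := by
    have h := log_le_sub_one_of_pos (show 0 < r ^ 5 / 2 ^ 3 by positivity)
    rw [log_div (by positivity) (by positivity), log_pow, log_pow] at h
    have : r ^ 5 = r + 2 + 2 * r ^ 2 := by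
      have : r ^ 5 = r ^ 2 * r ^ 3 := by ring
      rw [this, hr]; linear_combination hr
    have : r ^ 2 < 2.3147 := by nlinarith
    push_cast at h
    linarith
  have pD : 0.1552 ≤ p * (log 2 - log r) := by nlinarith
  have A : ∀ U W : ℝ, 0 < U → 0 < W →
      p * log U + (1 - p) * log W + (2 + p) * log r - p * log 2 ≤ log (U + W) := by
    intro U W hU hW
    have h := J p (1 - p) U W (by linarith) (by linarith) hU hW
    rw [lp, lq, show p + (1 - p) = 1 by ring, log_one] at h
    linarith
  have B : ∀ U W : ℝ, 0 < U → 0 < W →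
      log U / 2 + (2 * p - 1 / 2) * log W + 2 * p * log 2 - 0.0164 ≤ 2 * p * log (U + W) := by
    intro U W hU hW
    have h := J (1 / 2) (2 * p - 1 / 2) U W (by linarith) (by linarith) hU hW
    have h' := H (1 / 2) (2 * p - 1 / 2) (by linarith) (by linarith)
    rw [show 1 / 2 + (2 * p - 1 / 2) = 2 * p by ring] at h h'
    have : (1 / 2 - (2 * p - 1 / 2)) ^ 2 / (2 * p) ≤ 0.0164 := by
      rw [div_le_iff₀ (by linarith)]; nlinarith
    linarith
  have C : ∀ U W : ℝ, 0 < U → 0 < W →
      p * log U + p * log W + 2 * p * log 2 ≤ 2 * p * log (U + W) := by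
    intro U W hU hW
    have := mul_le_mul_of_nonneg_left (E U W hU hW) (show 0 ≤ 2 * p by linarith)
    linarith
  have a1 := A X Y hX hY; have a2 := A Y X hY hX; have a3 := A X Z hX hZ
  have a4 := A Z X hZ hX; have a5 := A Y Z hY hZ; have a6 := A Z Y hZ hY
  have b1 := B X Y hX hY; have b2 := B Y X hY hX; have b3 := B X Z hX hZ
  have b4 := B Z X hZ hX; have b5 := B Y Z hY hZ; have b6 := B Z Y hZ hY
  have c1 := C X Y hX hY; have c2 := C X Z hX hZ; have c3 := C Y Z hY hZ
  have e1 := E X Y hX hY; have e2 := E X Z hX hZ; have e3 := E Y Z hY hZ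
  rw [add_comm Y X] at a2 b2
  rw [add_comm Z X] at a4 b4
  rw [add_comm Z Y] at a6 b6
  rw [e4]
  split_ifs <;> linarith

variable {V : Type} [Fintype V] [DecidableEq V] (G : SimpleGraph V) [DecidableRel G.Adj]

/-- The non-backtracking matrix, indexed by directed edges (darts). -/
def NB : Matrix G.Dart G.Dart ℂ := fun e f => if e.snd = f.fst ∧ f ≠ e.symm then 1 else 0

/-- The growth rate: the spectral radius (Perron eigenvalue) of the non-backtracking matrix. -/
noncomputable def rho : ENNReal := spectralRadius ℂ (NB G)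

/-- Connected, exactly half of the vertices have degree two and half have degree three. -/
def InClass : Prop := G.Connected ∧ 2 * #{v | G.degree v = 2} = Fintype.card V ∧
  2 * #{v | G.degree v = 3} = Fintype.card V

theorem key {M : Type} [AddCommMonoid M] (F : V → V → M) (e : G.Dart) :
    ∑ f : G.Dart, (if e.snd = f.fst ∧ f ≠ e.symm then F f.fst f.snd else 0) =
      ∑ y ∈ (G.neighborFinset e.snd).erase e.fst, F e.snd y := by
  rw [← sum_filter]
  refine sum_bij (fun f _ => f.snd) ?_ ?_ ?_ ?_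
  · intro f hf
    obtain ⟨h1, h2⟩ := (mem_filter.1 hf).2
    refine mem_erase.2 ⟨fun h => h2 (Dart.ext _ _ (Prod.ext h1.symm h)), ?_⟩
    rw [mem_neighborFinset, h1]; exact f.adj
  · intro f hf f' hf' h
    exact Dart.ext _ _ (Prod.ext ((mem_filter.1 hf).2.1.symm.trans (mem_filter.1 hf').2.1) h)
  · intro y hy
    obtain ⟨h1, h2⟩ := mem_erase.1 hy
    refine ⟨⟨(e.snd, y), by simpa using h2⟩, mem_filter.2 ⟨mem_univ _, rfl, fun h => h1 ?_⟩, rfl⟩
    exact congrArg (fun d : G.Dart => d.snd) h
  · intro f hf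
    rw [(mem_filter.1 hf).2.1]

/-- number of non-backtracking continuations -/
def y : ℕ → V → V → ℝ
  | 0, _, _ => 1
  | l + 1, u, v => ∑ w ∈ (G.neighborFinset v).erase u, y l v w

theorem pow_one' (l : ℕ) (e : G.Dart) : (NB G ^ l *ᵥ fun _ => 1) e = (y G l e.fst e.snd : ℂ) := by
  induction l generalizing e with
  | zero => simp [y]
  | succ l ih =>
    rw [pow_succ', ← mulVec_mulVec]
    simp only [y]
    push_cast
    rw [← key G (fun u v => (y G l u v : ℂ))]
    simp only [mulVec, dotProduct] at ih ⊢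
    refine sum_congr rfl fun f _ => ?_
    rw [ih, NB]; split_ifs <;> simp

theorem ypos (hd : ∀ v, G.degree v = 2 ∨ G.degree v = 3) (l : ℕ) (u v : V) : 0 < y G l u v := by
  induction l generalizing u v with
  | zero => simp [y]
  | succ l ih =>
    refine sum_pos (fun w _ => ih _ _) (card_pos.1 ?_)
    have := pred_card_le_card_erase (s := G.neighborFinset v) (a := u)
    rw [card_neighborFinset_eq_degree] at this
    rcases hd v with h | h <;> omega

theorem swap (F : V → V → ℝ) :
    ∑ v, ∑ u ∈ G.neighborFinset v, F u v = ∑ v, ∑ u ∈ G.neighborFinset v, F v u :=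
  sum_comm' (by intro x z; simp [adj_comm])

/-- edge weights -/
noncomputable def g (r : ℝ) (u v : V) : ℝ := if G.degree u = 2 ∨ G.degree v = 2 then 1 else 4 / r ^ 3

theorem loc (r : ℝ) (h1 : 1.5213 < r) (h2 : r < 1.5214) (hr : r ^ 3 = r + 2)
    (hd : ∀ v, G.degree v = 2 ∨ G.degree v = 3) (v : V) (Y : V → ℝ) (hY : ∀ u, 0 < Y u) :
    ∑ u ∈ G.neighborFinset v, g G r v u * (log (Y u) + log r) +
      (2 * log r + 0.04) * (1 - 2 * (if G.degree v = 2 then 1 else 0)) +
      0.02 * ((G.degree v * if G.degree v = 2 then 1 else 0) -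
        ∑ u ∈ G.neighborFinset v, if G.degree u = 2 then 1 else 0) ≤
    ∑ u ∈ G.neighborFinset v, g G r v u * log (∑ w ∈ (G.neighborFinset v).erase u, Y w) := by
  have hs : ∀ u ∈ G.neighborFinset v, ∑ w ∈ (G.neighborFinset v).erase u, Y w =
      ∑ w ∈ G.neighborFinset v, Y w - Y u := fun u hu => by
    rw [← add_sum_erase _ _ hu]; ring
  refine le_of_le_of_eq ?_ (sum_congr rfl fun u hu => by rw [hs u hu]).symm
  rcases hd v with h | h
  · obtain ⟨a, b, hab, e⟩ := card_eq_two.1 ((G.card_neighborFinset_eq_degree v).trans h)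
    simp only [e, sum_pair hab, g, h, true_or, if_true, add_sub_cancel_left, add_sub_cancel_right]
    push_cast
    split_ifs <;> linarith
  · obtain ⟨a, b, c, hab, hac, hbc, e⟩ := card_eq_three.1 ((G.card_neighborFinset_eq_degree v).trans h)
    have s3 : ∀ F : V → ℝ, ∑ u ∈ G.neighborFinset v, F u = F a + F b + F c := fun F => by
      rw [e, sum_insert (by simp [hab, hac]), sum_pair hbc, add_assoc]
    have := loc3 r h1 h2 hr (G.degree a = 2) (G.degree b = 2) (G.degree c = 2) _ _ _ (hY a) (hY b) (hY c)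
    simp only [s3, g, h, show ¬ (3 = 2) by norm_num, false_or, if_false]
    rw [show Y a + Y b + Y c - Y a = Y b + Y c by ring, show Y a + Y b + Y c - Y b = Y a + Y c by ring,
      show Y a + Y b + Y c - Y c = Y a + Y b by ring]
    linarith

theorem step (r : ℝ) (h1 : 1.5213 < r) (h2 : r < 1.5214) (hr : r ^ 3 = r + 2)
    (hd : ∀ v, G.degree v = 2 ∨ G.degree v = 3) (hc : 2 * #{v | G.degree v = 2} = Fintype.card V)
    (l : ℕ) : l * log r * ∑ v, ∑ u ∈ G.neighborFinset v, g G r v u ≤
      ∑ v, ∑ u ∈ G.neighborFinset v, g G r v u * log (y G l v u) := by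
  induction l with
  | zero => simp [y]
  | succ l ih =>
    have h := sum_le_sum fun v (_ : v ∈ univ) => loc G r h1 h2 hr hd v (y G l v) (ypos G hd l v)
    have e1 : ∑ v, (1 - 2 * (if G.degree v = 2 then 1 else 0) : ℝ) = 0 := by
      rw [sum_sub_distrib, ← mul_sum, sum_boole, sum_const, card_univ, ← hc]; simp
    have e2 : ∑ v, ∑ u ∈ G.neighborFinset v, (if G.degree u = 2 then 1 else 0 : ℝ) =
        ∑ v, (G.degree v * if G.degree v = 2 then 1 else 0 : ℝ) := by
      rw [swap G (fun u _ => if G.degree u = 2 then 1 else 0)]; simp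
    have e3 : ∑ v, ∑ u ∈ G.neighborFinset v, g G r v u * log (y G (l + 1) v u) =
        ∑ v, ∑ u ∈ G.neighborFinset v, g G r v u * log (∑ w ∈ (G.neighborFinset v).erase u, y G l v w) := by
      rw [← swap G (fun v u => g G r v u * log (y G (l + 1) v u))]
      simp only [y, g, or_comm]
    rw [sum_add_distrib, sum_add_distrib, ← mul_sum, ← mul_sum, e1, sum_sub_distrib, e2] at h
    simp only [mul_add, sum_add_distrib, ← sum_mul] at h
    rw [e3]
    push_cast
    linarith

open scoped Matrix.Norms.Operator in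
theorem lower (r : ℝ) (h1 : 1.5213 < r) (h2 : r < 1.5214) (hr : r ^ 3 = r + 2) (hG : InClass G) :
    ENNReal.ofReal r ≤ rho G := by
  obtain ⟨hc, n2, n3⟩ := hG
  have hd : ∀ v, G.degree v = 2 ∨ G.degree v = 3 := by
    have h : ({v | G.degree v = 2} : Finset V) ∪ ({v | G.degree v = 3} : Finset V) = univ := by
      apply eq_univ_of_card
      rw [card_union_of_disjoint (disjoint_filter.2 fun v _ h => by omega)]
      omega
    intro v
    simpa using (h.symm ▸ mem_univ v : v ∈ ({v | G.degree v = 2} : Finset V) ∪ ({v | G.degree v = 3} : Finset V))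
  have r0 : 0 < r := by linarith
  have gp : ∀ u v, 0 < g G r u v := fun u v => by unfold g; split_ifs <;> positivity
  have hne := hc.nonempty
  have Z : 0 < ∑ v, ∑ u ∈ G.neighborFinset v, g G r v u :=
    sum_pos (fun v _ => sum_pos (fun u _ => gp _ _) (card_pos.1 (by
      rw [card_neighborFinset_eq_degree]; rcases hd v with h | h <;> omega))) univ_nonempty
  refine ge_of_tendsto (spectrum.pow_norm_pow_one_div_tendsto_nhds_spectralRadius (NB G)) ?_
  filter_upwards [eventually_gt_atTop 0] with l hl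
  have hM : ∀ v, ∀ u ∈ G.neighborFinset v, y G l v u ≤ ‖NB G ^ l‖ := by
    intro v u hu
    have a := norm_le_pi_norm (NB G ^ l *ᵥ fun _ => 1) ⟨(v, u), by simpa using hu⟩
    have b := linfty_opNorm_mulVec (NB G ^ l) fun _ => 1
    have c : ‖fun _ : G.Dart => (1 : ℂ)‖ ≤ 1 := (pi_norm_le_iff_of_nonneg zero_le_one).2 (by simp)
    rw [pow_one', Complex.norm_real] at a
    have := mul_le_mul_of_nonneg_left c (norm_nonneg (NB G ^ l))
    linarith [le_abs_self (y G l v u), Real.norm_eq_abs (y G l v u)]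
  have h := (step G r h1 h2 hr hd n2 l).trans (sum_le_sum fun v _ => sum_le_sum fun u hu =>
    mul_le_mul_of_nonneg_left (log_le_log (ypos G hd l v u) (hM v u hu)) (gp v u).le)
  simp only [← sum_mul] at h
  rw [mul_comm] at h
  have h' := le_of_mul_le_mul_left h Z
  have hp : 0 < ‖NB G ^ l‖ := by
    obtain ⟨v⟩ := hne
    obtain ⟨u, hu⟩ : (G.neighborFinset v).Nonempty := card_pos.1 (by
      rw [card_neighborFinset_eq_degree]; rcases hd v with h | h <;> omega)
    exact (ypos G hd l v u).trans_le (hM v u hu)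
  rw [← log_pow, log_le_log_iff (by positivity) hp] at h'
  refine ENNReal.ofReal_le_ofReal ?_
  have := rpow_le_rpow (by positivity) h' (show (0 : ℝ) ≤ 1 / l by positivity)
  rwa [one_div, pow_rpow_inv_natCast r0.le hl.ne', ← one_div] at this

theorem upper (r : ℝ) (X : V → V → ℝ) (hX : ∀ u v, 0 < X u v) (r0 : 0 ≤ r)
    (h : ∀ u v, G.Adj u v → ∑ w ∈ (G.neighborFinset v).erase u, X v w = r * X u v) :
    rho G ≤ ENNReal.ofReal r := by
  refine iSup₂_le fun k hk => ?_
  rw [spectrum.mem_iff, isUnit_iff_isUnit_det, isUnit_iff_ne_zero, not_not,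
    ← exists_mulVec_eq_zero_iff] at hk
  obtain ⟨v, v0, hv⟩ := hk
  obtain ⟨e0, he0⟩ := Function.ne_iff.1 v0
  obtain ⟨e, -, he⟩ := exists_max_image univ (fun e : G.Dart => ‖v e‖ / X e.fst e.snd) ⟨e0, mem_univ _⟩
  obtain ⟨m, hm⟩ : ∃ m, m = ‖v e‖ / X e.fst e.snd := ⟨_, rfl⟩
  have m0 : 0 < m := by
    rw [hm]; exact (div_pos (norm_pos_iff.2 he0) (hX _ _)).trans_le (he e0 (mem_univ _))
  have hf : ∀ f, ‖v f‖ ≤ m * X f.fst f.snd := fun f => by
    rw [← div_le_iff₀ (hX _ _), hm]; exact he f (mem_univ _)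
  have ee : ‖v e‖ = m * X e.fst e.snd := by rw [hm, div_mul_cancel₀ _ (hX _ _).ne']
  have ev : k * v e = ∑ f, NB G e f * v f := by
    have := congrFun hv e
    rw [sub_mulVec, Algebra.algebraMap_eq_smul_one, smul_mulVec, one_mulVec] at this
    simpa [sub_eq_zero, mulVec, dotProduct] using this
  have b : ‖k‖ * ‖v e‖ ≤ r * ‖v e‖ := by
    rw [← norm_mul, ev]
    refine (norm_sum_le _ _).trans ((sum_le_sum (g := fun f : G.Dart =>
      if e.snd = f.fst ∧ f ≠ e.symm then m * X f.fst f.snd else 0) fun f _ => ?_).trans ?_)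
    · rw [NB]; split_ifs <;> simp [hf]
    · rw [key G fun a b => m * X a b, ← mul_sum, h _ _ e.adj, ee]; linarith
  have := le_of_mul_le_mul_right b (by rw [ee]; exact mul_pos m0 (hX _ _))
  rw [← ENNReal.ofReal_coe_nnreal]
  exact ENNReal.ofReal_le_ofReal this

/-- `K₄` with the edge `{2, 3}` deleted. -/
def K : SimpleGraph (Fin 4) := fromRel fun a _ => a < 2

instance : DecidableRel K.Adj := fun _ _ => inferInstanceAs (Decidable (_ ∧ _))

theorem result : InClass K ∧ (∃ r : ℝ, 0 < r ∧ r ^ 3 = r + 2 ∧ rho K = ENNReal.ofReal r) ∧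
    ∀ (V : Type) [Fintype V] [DecidableEq V] (G : SimpleGraph V) [DecidableRel G.Adj],
      InClass G → rho K ≤ rho G := by
  have hK : InClass K := ⟨by decide +kernel, by decide +kernel, by decide +kernel⟩
  obtain ⟨r, ⟨h1, h2⟩, hr⟩ : ∃ r ∈ Set.Ioo (1.5213 : ℝ) 1.5214, r ^ 3 - r = 2 :=
    intermediate_value_Ioo (f := fun r : ℝ => r ^ 3 - r) (by norm_num) (by fun_prop)
      ⟨by norm_num, by norm_num⟩
  have hr : r ^ 3 = r + 2 := by linarith
  have r0 : 0 < r := by linarith
  have up : rho K ≤ ENNReal.ofReal r := by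
    refine upper K r (fun u v => if 2 ≤ u then r ^ 2 else if 2 ≤ v then r else 2)
      (fun u v => by split_ifs <;> positivity) r0.le fun u v huv => ?_
    have e : ∀ v u : Fin 4, (K.neighborFinset v).erase u =
        univ.filter fun w => w ≠ u ∧ w ≠ v ∧ (w < 2 ∨ v < 2) := by decide +kernel
    rw [e, sum_filter, Fin.sum_univ_four]
    fin_cases u <;> fin_cases v <;> simp [K] at huv ⊢ <;> linarith
  exact ⟨hK, ⟨r, r0, hr, le_antisymm up (lower K r h1 h2 hr hK)⟩,
    fun V _ _ G _ hG => up.trans (lower G r h1 h2 hr hG)⟩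

end Pool.Agent.Results.MP_879d0a_co.Min
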